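import Pool.Agent.Helper68.KPR.St
import Pool.Agent.Helper5.KPA.StN

/-!
# Project KP (MP_26be5b_ag), chapter A, part R, module RTP: from Dl to linear maps
-/

set_option autoImplicit false

namespace Pool.Agent.Helper80.KPR

open Pool.Agent.Helper68.KPR Pool.Agent.Helper5.KPA Pool.Agent.Helper52.KP MvPolynomial

/-- elements of the graded pieces of the subalgebra, as elements of the graded pieces -/
noncomputable def rtpR (C : Cone) (r i : ℕ) : DG C r i →ₗ[ℂ] RD C r i where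
  toFun x := ⟨((x : DA C r) : MvPolynomial (Fin C.m) ℂ), x.2⟩
  map_add' _ _ := rfl
  map_smul' _ _ := rfl

/-- families of linear maps on the pieces of an internal direct sum -/
theorem rtp_abs {D P : Type} [AddCommGroup D] [Module ℂ D] [AddCommGroup P] [Module ℂ P]
    (G : ℕ → Submodule ℂ D) (hint : DirectSum.IsInternal G) :
    ∃ Λ : ((i : ℕ) → (G i →ₗ[ℂ] P)) →ₗ[ℂ] (D →ₗ[ℂ] P), ∀ f i (x : G i), Λ f (x : D) = f i x := by
  let e : (Π₀ i : ℕ, G i) ≃ₗ[ℂ] D := LinearEquiv.ofBijective (DirectSum.coeLinearMap G) hint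
  let Λ : ((i : ℕ) → (G i →ₗ[ℂ] P)) ≃ₗ[ℂ] ((Π₀ i : ℕ, G i) →ₗ[ℂ] P) := DFinsupp.lsum ℂ
  have hsymm : ∀ (i : ℕ) (x : G i), e.symm (x : D) = DFinsupp.single i x := by
    intro i x
    rw [LinearEquiv.symm_apply_eq]
    exact (DirectSum.coeLinearMap_lof G i x).symm
  refine ⟨(LinearMap.lcomp ℂ P (e.symm : D →ₗ[ℂ] _)) ∘ₗ Λ.toLinearMap, fun f i x => ?_⟩
  have h2 : ((LinearMap.lcomp ℂ P (e.symm : D →ₗ[ℂ] _)) ∘ₗ Λ.toLinearMap) f (x : D) =
    Λ f (e.symm (x : D)) := rfl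
  rw [h2, hsymm]
  exact DFinsupp.lsum_single ℂ f i x

theorem rtp_ext {D P : Type} [AddCommGroup D] [Module ℂ D] [AddCommGroup P] [Module ℂ P]
    (G : ℕ → Submodule ℂ D) (htop : (⨆ i, G i) = ⊤) {f g : D →ₗ[ℂ] P}
    (h : ∀ i, ∀ x ∈ G i, f x = g x) : f = g := by
  apply LinearMap.ext
  intro x
  have hx : x ∈ ⨆ i, G i := by rw [htop]; exact Submodule.mem_top
  induction hx using Submodule.iSup_induction' with
  | mem i x hx => exact h i x hx
  | zero => rw [map_zero, map_zero]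
  | add x y _ _ hx hy => rw [map_add, map_add, hx, hy]

theorem rtp_dl {s : ℕ} {V : Type} [AddCommGroup V] [Module ℂ V]
    {ι : MvPolynomial (Fin s) ℂ →ₐ[ℂ] Module.End ℂ V} {M : ℕ → Submodule ℂ V} {k : ℕ}
    {φ : (i : ℕ) → (M i →ₗ[ℂ] MvPolynomial (Fin s) ℂ)} (h : φ ∈ Dl ι M k)
    {i : ℕ} {l : Fin s} {x : M i} {y : M (i + 1)} (hxy : (y : V) = ι (X l) x) :
    φ (i + 1) y = X l * φ i x := h.2 i l x y hxy

theorem rtp_ac {e : ℕ} {S : Type} [CommRing S] [Algebra ℂ S] (a : Fin e → S) (l : Fin e) (x : S) :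
    ac a (X l) x = a l * x := by
  rw [ac, AlgHom.comp_apply, aeval_X]
  rfl

theorem hRTP (hRSD : StRSD) (hAGR : StAGR) : StRTP := by
  intro C hC r F hF a ha k
  obtain ⟨hmem, hind, htop, hone, hmul⟩ := hRSD C hC r F hF
  obtain ⟨-, hgr, -, -⟩ := hAGR C hC r F hF
  have hint : DirectSum.IsInternal (DG C r) :=
    DirectSum.isInternal_submodule_of_iSupIndep_of_iSup_eq_top hind htop
  obtain ⟨Λ, hΛ⟩ := rtp_abs (P := MvPolynomial (Fin C.m) ℂ) (DG C r) hint
  let Φ : Dl (ac a) (RD C r) k →ₗ[ℂ]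
      ((i : ℕ) → (DG C r i →ₗ[ℂ] MvPolynomial (Fin C.m) ℂ)) :=
    { toFun := fun φ i => φ.1 i ∘ₗ rtpR C r i
      map_add' := fun _ _ => rfl
      map_smul' := fun _ _ => rfl }
  obtain ⟨Θ, hΘ⟩ : ∃ Θ : Dl (ac a) (RD C r) k →ₗ[ℂ] (DA C r →ₗ[ℂ] MvPolynomial (Fin C.m) ℂ),
      ∀ φ, Θ φ = Λ (Φ φ) := ⟨Λ ∘ₗ Φ, fun φ => rfl⟩
  have h1 : ∀ (φ : Dl (ac a) (RD C r) k) (i : ℕ) (x : DG C r i),
      Θ φ (x : DA C r) = φ.1 i (rtpR C r i x) := by
    intro φ i x
    rw [hΘ, hΛ]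
    rfl
  have hP1 : ∀ (φ : Dl (ac a) (RD C r) k) (i : ℕ) (x : RD C r i) (x' : DA C r),
      (x' : MvPolynomial (Fin C.m) ℂ) = x → Θ φ x' = φ.1 i x := by
    intro φ i x x' hx
    have hx' : x' ∈ DG C r i := by
      change (DA C r).val.toLinearMap x' ∈ RD C r i
      have : (DA C r).val.toLinearMap x' = (x : MvPolynomial (Fin C.m) ℂ) := hx
      rw [this]
      exact x.2
    have h2 := h1 φ i ⟨x', hx'⟩
    have h3 : rtpR C r i ⟨x', hx'⟩ = x := Subtype.ext hx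
    rw [h3] at h2
    exact h2
  have hamem : ∀ l, a l ∈ DA C r := fun l => (hmem _).2 (Submodule.mem_iSup_of_mem 1 (ha.mem l))
  -- multiplication by one variable
  have hX : ∀ (φ : Dl (ac a) (RD C r) k) (l : Fin C.m) (al : DA C r),
      (al : MvPolynomial (Fin C.m) ℂ) = a l → ∀ (x : DA C r), Θ φ (al * x) = X l * Θ φ x := by
    intro φ l al hal x
    have hfg : Θ φ ∘ₗ LinearMap.mulLeft ℂ al =
        LinearMap.mulLeft ℂ (X l : MvPolynomial (Fin C.m) ℂ) ∘ₗ Θ φ := by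
      apply rtp_ext (DG C r) htop
      intro i x hx
      have hx2 : (x : MvPolynomial (Fin C.m) ℂ) ∈ RD C r i := hx
      have hy : a l * (x : MvPolynomial (Fin C.m) ℂ) ∈ RD C r (i + 1) := by
        rw [add_comm i 1]
        exact hgr.mul 1 i _ _ (ha.mem l) hx2
      have e0 : ((al * x : DA C r) : MvPolynomial (Fin C.m) ℂ) = a l * x := by
        rw [Subalgebra.coe_mul, hal]
      have e1 : Θ φ x = φ.1 i ⟨x, hx2⟩ := hP1 φ i ⟨x, hx2⟩ x rfl
      have e2 : Θ φ (al * x) = φ.1 (i + 1) ⟨_, hy⟩ := hP1 φ (i + 1) ⟨_, hy⟩ _ e0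
      have e3 : φ.1 (i + 1) ⟨_, hy⟩ = X l * φ.1 i ⟨x, hx2⟩ := by
        apply rtp_dl φ.2
        rw [rtp_ac]
      exact (e2.trans e3).trans (congrArg (fun t => X l * t) e1.symm)
    exact LinearMap.congr_fun hfg x
  refine ⟨Θ, hP1, ?_⟩
  intro φ α
  induction α using MvPolynomial.induction_on with
  | C c =>
    intro x y hxy
    have : y = c • x := by
      apply Subtype.ext
      rw [hxy, aeval_C]
      change _ = c • (x : MvPolynomial (Fin C.m) ℂ)
      rw [Algebra.smul_def]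
    rw [this, map_smul, smul_eq_C_mul]
  | add p q hp hq =>
    intro x y hxy
    have hpm : aeval a p * (x : MvPolynomial (Fin C.m) ℂ) ∈ DA C r := by
      refine (DA C r).mul_mem ?_ x.2
      have h2 : (aeval a p : MvPolynomial (Fin C.m) ℂ) =
          ((aeval (fun l => (⟨a l, hamem l⟩ : DA C r)) p : DA C r) :
            MvPolynomial (Fin C.m) ℂ) := by
        rw [← Subalgebra.coe_val, ← AlgHom.comp_apply, comp_aeval]
        rfl
      rw [h2]
      exact Subtype.prop _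
    have hqm : aeval a q * (x : MvPolynomial (Fin C.m) ℂ) ∈ DA C r := by
      refine (DA C r).mul_mem ?_ x.2
      have h2 : (aeval a q : MvPolynomial (Fin C.m) ℂ) =
          ((aeval (fun l => (⟨a l, hamem l⟩ : DA C r)) q : DA C r) :
            MvPolynomial (Fin C.m) ℂ) := by
        rw [← Subalgebra.coe_val, ← AlgHom.comp_apply, comp_aeval]
        rfl
      rw [h2]
      exact Subtype.prop _
    have : y = ⟨_, hpm⟩ + ⟨_, hqm⟩ := by
      apply Subtype.ext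
      change (y : MvPolynomial (Fin C.m) ℂ) = aeval a p * (x : MvPolynomial (Fin C.m) ℂ) +
        aeval a q * (x : MvPolynomial (Fin C.m) ℂ)
      rw [hxy, map_add, add_mul]
    rw [this, map_add, hp x ⟨_, hpm⟩ rfl, hq x ⟨_, hqm⟩ rfl, add_mul]
  | mul_X p l hp =>
    intro x y hxy
    have : (y : MvPolynomial (Fin C.m) ℂ) = aeval a p *
        ((⟨a l, hamem l⟩ * x : DA C r) : MvPolynomial (Fin C.m) ℂ) := by
      change (y : MvPolynomial (Fin C.m) ℂ) = aeval a p * (a l * (x : MvPolynomial (Fin C.m) ℂ))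
      rw [hxy, map_mul, aeval_X, mul_assoc]
    rw [hp _ _ this, hX φ l ⟨a l, hamem l⟩ rfl, mul_assoc]

end Pool.Agent.Helper80.KPR
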